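import Mathlib
import Pool.Agent.Helper747.BLL

set_option autoImplicit false

namespace Pool.Agent.Results.MP_d9d12d_lc.BorelImages

/-- Under CH, for every `s ∈ [0,1]` there is a set `E` in the Cantor space of Hausdorff dimension
`s` (for the metric `2^-n`, `n` the first difference) such that every Borel image of `E` in the
Cantor space has Hausdorff dimension at most `s`. -/
theorem result (CH : (Cardinal.continuum : Cardinal.{0}) = Cardinal.aleph 1)
    (s : ℝ) (hs : s ∈ Set.Icc (0 : ℝ) 1) :
    letI : MetricSpace (ℕ → Bool) := PiNat.metricSpaceOfDiscreteUniformity (fun _ => rfl)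
    ∃ E : Set (ℕ → Bool), dimH E = ENNReal.ofReal s ∧
      ∀ f : (ℕ → Bool) → (ℕ → Bool),
        (∀ U : Set (ℕ → Bool), IsOpen U → @MeasurableSet _ (borel (ℕ → Bool)) (f ⁻¹' U)) →
        dimH (f '' E) ≤ ENNReal.ofReal s := by
  have h1 : s.toNNReal ≤ 1 := by
    rw [Real.toNNReal_le_one]
    exact hs.2
  obtain ⟨E, h2, h3⟩ := Pool.Agent.Helper747.BL.main CH h1
  refine ⟨E, h2, fun f hf => h3 f ?_⟩
  refine measurable_of_isOpen fun U hU => ?_
  have h4 := hf U hU
  have h5 : (borel (ℕ → Bool)) = MeasurableSpace.pi := BorelSpace.measurable_eq.symm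
  rw [h5] at h4
  exact h4

end Pool.Agent.Results.MP_d9d12d_lc.BorelImages
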